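import Pool.Agent.C4N.Stm
import Pool.Agent.Helper75_LA.Split

/-!
# C4N, module EUL: balanced orientation
-/

set_option autoImplicit false

namespace Pool.Agent.C4N.H17

open SimpleGraph Pool.Agent.Helper75_LA

theorem eul : EULStmt := by
  classical
  intro V _ G
  obtain ⟨E, hE⟩ : ∃ E : Finset (V × V), ∀ z : V × V, z ∈ E ↔ G.Adj z.1 z.2 :=
    ⟨Finset.univ.filter (fun z => G.Adj z.1 z.2), fun z => by simp⟩
  obtain ⟨f, hf1, hf2⟩ := balanced_split (fun z : V × V => z.1) (fun z : V × V => s(z.1, z.2)) E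
  -- the two orientations of an edge get different colours
  have hflip : ∀ u v, G.Adj u v → f (v, u) = !f (u, v) := by
    intro u v huv
    by_contra hcon
    have heq : f (v, u) = f (u, v) := by
      revert hcon
      cases f (v, u) <;> cases f (u, v) <;> simp
    have h1 := hf2 s(u, v) (f (u, v))
    have h2 : (E.filter (fun z => s(z.1, z.2) = s(u, v) ∧ f z = !f (u, v))).card = 0 := by
      rw [Finset.card_eq_zero, Finset.filter_eq_empty_iff]
      rintro ⟨a, b⟩ _ ⟨h3, h4⟩
      simp only [Sym2.eq_iff] at h3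
      rcases h3 with ⟨rfl, rfl⟩ | ⟨rfl, rfl⟩
      · revert h4; cases f (a, b) <;> simp
      · rw [heq] at h4; revert h4; cases f (b, a) <;> simp
    have h3 : 2 ≤ (E.filter (fun z => s(z.1, z.2) = s(u, v) ∧ f z = f (u, v))).card := by
      have hsub : ({(u, v), (v, u)} : Finset (V × V)) ⊆
          E.filter (fun z => s(z.1, z.2) = s(u, v) ∧ f z = f (u, v)) := by
        intro z hz
        simp only [Finset.mem_insert, Finset.mem_singleton] at hz
        rw [Finset.mem_filter, hE]
        rcases hz with rfl | rfl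
        · exact ⟨huv, rfl, rfl⟩
        · exact ⟨huv.symm, Sym2.eq_swap, heq⟩
      have h4 := Finset.card_le_card hsub
      rw [Finset.card_pair (by
        intro h5
        rw [Prod.mk.injEq] at h5
        exact huv.ne h5.1)] at h4
      exact h4
    omega
  have hcount : ∀ v (b : Bool), {u | G.Adj v u ∧ f (v, u) = b}.ncard =
      (E.filter (fun z => z.1 = v ∧ f z = b)).card := by
    intro v b
    rw [← Set.ncard_coe_finset,
      ← Set.ncard_image_of_injective (f := fun y : V => (v, y)) {u | G.Adj v u ∧ f (v, u) = b}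
      (fun a b hab => by simpa using hab)]
    congr 1
    ext ⟨a, c⟩
    simp only [Finset.coe_filter, Set.mem_image, Set.mem_ofPred_eq, Prod.mk.injEq, hE]
    constructor
    · rintro ⟨y, ⟨h1, h2⟩, rfl, rfl⟩
      exact ⟨h1, rfl, h2⟩
    · rintro ⟨h1, rfl, h2⟩
      exact ⟨c, ⟨h1, h2⟩, rfl, rfl⟩
  have hin : ∀ v, {u | G.Adj u v ∧ f (u, v) = true} = {u | G.Adj v u ∧ f (v, u) = false} := by
    intro v
    ext u
    simp only [Set.mem_ofPred_eq]
    constructor
    · rintro ⟨h1, h2⟩
      refine ⟨h1.symm, ?_⟩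
      rw [hflip u v h1, h2]
      rfl
    · rintro ⟨h1, h2⟩
      refine ⟨h1.symm, ?_⟩
      rw [hflip v u h1, h2]
      rfl
  refine ⟨fun u v => G.Adj u v ∧ f (u, v) = true, ?_, ?_, fun v => ?_⟩
  · intro u v
    constructor
    · intro huv
      have h1 := hflip u v huv
      rcases hb : f (u, v) with _ | _
      · right
        refine ⟨huv.symm, ?_⟩
        rw [h1, hb]
        rfl
      · left
        exact ⟨huv, rfl⟩
    · rintro (h1 | h1)
      · exact h1.1
      · exact h1.1.symm
  · rintro u v ⟨h1, h2⟩ ⟨_, h4⟩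
    rw [hflip u v h1, h2] at h4
    exact absurd h4 (by simp)
  · rw [hin v, hcount v true, hcount v false]
    exact ⟨hf1 v true, hf1 v false⟩

end Pool.Agent.C4N.H17
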